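import Mathlib

/-!
# TN-D1: derivatives of Gibbs expectations in the inverse temperature
-/

set_option autoImplicit false
set_option linter.unusedSectionVars false

open MeasureTheory

noncomputable section

namespace Pool.Agent.Helper96.TN

/-- The Gibbs expectation of `u` with the weight `exp (b A)`. -/
def gb {X : Type*} [MeasurableSpace X] (μ : Measure X) (A : X → ℝ) (u : X → ℂ) (b : ℝ) : ℂ :=
  (∫ x, u x * (Real.exp (b * A x) : ℂ) ∂μ) / ((∫ x, Real.exp (b * A x) ∂μ : ℝ) : ℂ)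

variable {X : Type*} [TopologicalSpace X] [CompactSpace X] [SecondCountableTopology X]
  [MeasurableSpace X] [BorelSpace X]

theorem hd_num (μ : Measure X) [IsProbabilityMeasure μ] {A : X → ℝ} (hA : Continuous A) {a : ℝ}
    (ha : ∀ x, |A x| ≤ a) {u : X → ℂ} (hu : Continuous u) (b : ℝ) :
    HasDerivAt (fun b : ℝ => ∫ x, u x * (Real.exp (b * A x) : ℂ) ∂μ)
      (∫ x, (u x * (A x : ℂ)) * (Real.exp (b * A x) : ℂ) ∂μ) b := by
  have hcont : ∀ b : ℝ, Continuous fun x => (Real.exp (b * A x) : ℂ) := fun b =>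
    Complex.continuous_ofReal.comp (Real.continuous_exp.comp (continuous_const.mul hA))
  have hAc : Continuous fun x => (A x : ℂ) := Complex.continuous_ofReal.comp hA
  obtain ⟨C, hC⟩ : ∃ C : ℝ, ∀ x, ‖u x‖ ≤ C := by
    obtain ⟨C, hC⟩ := isCompact_univ.exists_bound_of_continuousOn hu.continuousOn
    exact ⟨C, fun x => hC x trivial⟩
  refine (hasDerivAt_integral_of_dominated_loc_of_deriv_le (μ := μ) (s := Metric.ball b 1)
    (F := fun (b : ℝ) x => u x * (Real.exp (b * A x) : ℂ))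
    (F' := fun (b : ℝ) x => (u x * (A x : ℂ)) * (Real.exp (b * A x) : ℂ))
    (bound := fun _ => C * a * Real.exp ((|b| + 1) * a)) (Metric.ball_mem_nhds b one_pos)
    ?_ ?_ ?_ ?_ ?_ ?_).2
  · exact Filter.Eventually.of_forall fun c => (hu.mul (hcont c)).aestronglyMeasurable
  · exact (hu.mul (hcont b)).integrable_of_hasCompactSupport (HasCompactSupport.of_compactSpace _)
  · exact ((hu.mul hAc).mul (hcont b)).aestronglyMeasurable
  · refine Filter.Eventually.of_forall fun x c hc => ?_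
    have h0 : 0 ≤ |A x| := abs_nonneg _
    have ha0 : 0 ≤ a := h0.trans (ha x)
    have hC0 : 0 ≤ C := (norm_nonneg _).trans (hC x)
    have hc1 : |c| ≤ |b| + 1 := by
      rw [Metric.mem_ball, Real.dist_eq] at hc
      have := abs_sub_abs_le_abs_sub c b
      linarith
    rw [norm_mul, norm_mul, Complex.norm_real, Complex.norm_real, Real.norm_eq_abs,
      Real.norm_eq_abs, abs_of_pos (Real.exp_pos _)]
    refine mul_le_mul (mul_le_mul (hC x) (ha x) h0 hC0) (Real.exp_le_exp.2 ?_)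
      (Real.exp_pos _).le (mul_nonneg hC0 ha0)
    calc c * A x ≤ |c * A x| := le_abs_self _
      _ = |c| * |A x| := abs_mul _ _
      _ ≤ (|b| + 1) * a := mul_le_mul hc1 (ha x) h0 (by positivity)
  · exact integrable_const _
  · refine Filter.Eventually.of_forall fun x c _ => ?_
    have h : HasDerivAt (fun b : ℝ => Real.exp (b * A x)) (Real.exp (c * A x) * A x) c := by
      simpa using ((hasDerivAt_id c).mul_const (A x)).exp
    have h2 := h.ofReal_comp.const_mul (u x)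
    refine h2.congr_deriv ?_
    push_cast
    ring

theorem num_one (μ : Measure X) (A : X → ℝ) (b : ℝ) :
    ((∫ x, Real.exp (b * A x) ∂μ : ℝ) : ℂ) = ∫ x, (1 : ℂ) * (Real.exp (b * A x) : ℂ) ∂μ := by
  simp only [one_mul]
  exact integral_ofReal.symm

theorem exp_int (μ : Measure X) [IsProbabilityMeasure μ] {A : X → ℝ} (hA : Continuous A) (b : ℝ) :
    Integrable (fun x => Real.exp (b * A x)) μ :=
  (Real.continuous_exp.comp (continuous_const.mul hA)).integrable_of_hasCompactSupport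
    (HasCompactSupport.of_compactSpace _)

theorem Z_pos (μ : Measure X) [IsProbabilityMeasure μ] {A : X → ℝ} (hA : Continuous A) (b : ℝ) :
    0 < ∫ x, Real.exp (b * A x) ∂μ :=
  integral_exp_pos (exp_int μ hA b)

theorem gb_hd (μ : Measure X) [IsProbabilityMeasure μ] {A : X → ℝ} (hA : Continuous A) {a : ℝ}
    (ha : ∀ x, |A x| ≤ a) {u : X → ℂ} (hu : Continuous u) (b : ℝ) :
    HasDerivAt (gb μ A u)
      (gb μ A (fun x => u x * (A x : ℂ)) b - gb μ A u b * gb μ A (fun x => (A x : ℂ)) b) b := by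
  have h1 := hd_num μ hA ha hu b
  have h2 := hd_num μ hA ha (continuous_const (y := (1 : ℂ))) b
  have hne : (∫ x, (1 : ℂ) * (Real.exp (b * A x) : ℂ) ∂μ) ≠ 0 := by
    rw [← num_one]
    exact_mod_cast (Z_pos μ hA b).ne'
  have h3 := h1.div h2 hne
  have e1 : gb μ A u = fun b : ℝ => (∫ x, u x * (Real.exp (b * A x) : ℂ) ∂μ) /
      ∫ x, (1 : ℂ) * (Real.exp (b * A x) : ℂ) ∂μ := by
    funext b
    rw [gb, num_one]
  rw [e1]
  refine h3.congr_deriv ?_
  unfold gb
  rw [num_one]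
  simp only [one_mul] at hne ⊢
  field_simp

theorem gb_norm (μ : Measure X) [IsProbabilityMeasure μ] {A : X → ℝ} (hA : Continuous A)
    {u : X → ℂ} {C : ℝ} (hC : ∀ x, ‖u x‖ ≤ C) (b : ℝ) : ‖gb μ A u b‖ ≤ C := by
  have hZ := Z_pos μ hA b
  rw [gb, norm_div, Complex.norm_real, Real.norm_eq_abs, abs_of_pos hZ, div_le_iff₀ hZ]
  calc ‖∫ x, u x * (Real.exp (b * A x) : ℂ) ∂μ‖ ≤ ∫ x, C * Real.exp (b * A x) ∂μ := by
        refine norm_integral_le_of_norm_le ((exp_int μ hA b).const_mul C) ?_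
        refine Filter.Eventually.of_forall fun x => ?_
        rw [norm_mul, Complex.norm_real, Real.norm_eq_abs, abs_of_pos (Real.exp_pos _)]
        exact mul_le_mul_of_nonneg_right (hC x) (Real.exp_pos _).le
    _ = C * ∫ x, Real.exp (b * A x) ∂μ := integral_const_mul _ _

theorem gb_deriv (μ : Measure X) [IsProbabilityMeasure μ] {A : X → ℝ} (hA : Continuous A) {a : ℝ}
    (ha : ∀ x, |A x| ≤ a) {u : X → ℂ} (hu : Continuous u) {C : ℝ} (hC : ∀ x, ‖u x‖ ≤ C) :
    ∃ g' g'' : ℝ → ℂ, (∀ b, HasDerivAt (gb μ A u) (g' b) b) ∧ (∀ b, HasDerivAt g' (g'' b) b) ∧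
      ∀ b, ‖g'' b‖ ≤ 6 * C * a ^ 2 := by
  have hAc : Continuous fun x => (A x : ℂ) := Complex.continuous_ofReal.comp hA
  have hX : Nonempty X := by
    by_contra h
    rw [not_nonempty_iff] at h
    have h1 := measure_univ (μ := μ)
    rw [Set.univ_eq_empty_iff.2 h, measure_empty] at h1
    exact zero_ne_one h1
  obtain ⟨x₀⟩ := hX
  have ha0 : 0 ≤ a := (abs_nonneg _).trans (ha x₀)
  have hC0 : 0 ≤ C := (norm_nonneg _).trans (hC x₀)
  have nA : ∀ x, ‖(A x : ℂ)‖ ≤ a := fun x => by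
    rw [Complex.norm_real, Real.norm_eq_abs]
    exact ha x
  have nuA : ∀ x, ‖u x * (A x : ℂ)‖ ≤ C * a := fun x => by
    rw [norm_mul]
    exact mul_le_mul (hC x) (nA x) (norm_nonneg _) hC0
  have nuAA : ∀ x, ‖u x * (A x : ℂ) * (A x : ℂ)‖ ≤ C * a * a := fun x => by
    rw [norm_mul]
    exact mul_le_mul (nuA x) (nA x) (norm_nonneg _) (mul_nonneg hC0 ha0)
  have nAA : ∀ x, ‖(A x : ℂ) * (A x : ℂ)‖ ≤ a * a := fun x => by
    rw [norm_mul]
    exact mul_le_mul (nA x) (nA x) (norm_nonneg _) ha0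
  have d1 := fun b => gb_hd μ hA ha hu b
  have d2 := fun b => gb_hd μ hA ha (u := fun x => u x * (A x : ℂ)) (hu.mul hAc) b
  have d3 := fun b => gb_hd μ hA ha hAc b
  refine ⟨_, _, d1, fun b => (d2 b).sub ((d1 b).mul (d3 b)), fun b => ?_⟩
  have m1 := gb_norm μ hA hC b
  have m2 := gb_norm μ hA nuA b
  have m3 := gb_norm μ hA nuAA b
  have m4 := gb_norm μ hA nA b
  have m5 := gb_norm μ hA nAA b
  have p1 : ‖gb μ A (fun x => u x * (A x : ℂ)) b * gb μ A (fun x => (A x : ℂ)) b‖ ≤ C * a * a := by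
    rw [norm_mul]
    exact mul_le_mul m2 m4 (norm_nonneg _) (mul_nonneg hC0 ha0)
  have p2 : ‖gb μ A u b * gb μ A (fun x => (A x : ℂ)) b‖ ≤ C * a := by
    rw [norm_mul]
    exact mul_le_mul m1 m4 (norm_nonneg _) hC0
  have p3 : ‖gb μ A (fun x => (A x : ℂ)) b * gb μ A (fun x => (A x : ℂ)) b‖ ≤ a * a := by
    rw [norm_mul]
    exact mul_le_mul m4 m4 (norm_nonneg _) ha0
  have q1 : ‖(gb μ A (fun x => u x * (A x : ℂ)) b - gb μ A u b * gb μ A (fun x => (A x : ℂ)) b) *
      gb μ A (fun x => (A x : ℂ)) b‖ ≤ (C * a + C * a) * a := by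
    rw [norm_mul]
    exact mul_le_mul ((norm_sub_le _ _).trans (add_le_add m2 p2)) m4 (norm_nonneg _)
      (by positivity)
  have q2 : ‖gb μ A u b * (gb μ A (fun x => (A x : ℂ) * (A x : ℂ)) b -
      gb μ A (fun x => (A x : ℂ)) b * gb μ A (fun x => (A x : ℂ)) b)‖ ≤ C * (a * a + a * a) := by
    rw [norm_mul]
    exact mul_le_mul m1 ((norm_sub_le _ _).trans (add_le_add m5 p3)) (norm_nonneg _) hC0
  refine ((norm_sub_le _ _).trans (add_le_add ((norm_sub_le _ _).trans (add_le_add m3 p1))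
    ((norm_add_le _ _).trans (add_le_add q1 q2)))).trans (le_of_eq ?_)
  ring

end Pool.Agent.Helper96.TN
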